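import Pool.Agent.MNU.Final

set_option autoImplicit false

/-!
# Many torsion points on hyperelliptic curves: definitions used in the final statement, part 2
-/

namespace Pool.Agent.MNV

open Polynomial NumberField Pool.Agent.MNT Pool.Agent.MNU

/-- `C` over the number field `K` has, over some number field `L ⊇ K` of arbitrary degree, `2 g + 9`
points `(x i, y i)` with distinct abscissae, not Weierstrass points, which are torsion in the
Jacobian; and `deg f = 2 g + 1`. -/
def ManyPoints (g : ℕ) {K : Type} [Field K] [NumberField K] (C : UBT.OddCurve K) : Prop :=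
  ∃ (L : Type) (_ : Field L) (_ : NumberField L) (_ : Algebra K L) (C' : UBT.OddCurve L)
    (x y : Fin (2 * g + 9) → L), C'.f = C.f.map (algebraMap K L) ∧ Many g C' x y

/-- `C` over `K` is a model, of odd degree `2 g + 1`, of a curve `y² = f(x)` over a number field
`F ⊆ K` (`deg f ≤ 2 g + 2`), and `C` has, over some number field `L ⊇ K` of arbitrary degree, a
torsion point whose abscissa in the coordinate of `y² = f(x)` is finite and of degree at least
`2 g + 9` over `F`. -/
def LargeDegree (g : ℕ) {K : Type} [Field K] [NumberField K] (C : UBT.OddCurve K) : Prop :=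
  ∃ (F L : Type) (_ : Field F) (_ : NumberField F) (_ : Field L) (_ : NumberField L)
    (_ : Algebra F K) (_ : Algebra K L) (_ : Algebra F L) (_ : IsScalarTower F K L)
    (f : F[X]) (α β γ δ : K) (C' : UBT.OddCurve L) (x y : L),
    OddModel g f C α β γ δ ∧ C'.f = C.f.map (algebraMap K L) ∧ y ^ 2 = C'.f.eval x ∧
    algebraMap K L γ * x + algebraMap K L δ ≠ 0 ∧
    2 * g + 9 ≤ (minpoly F ((algebraMap K L α * x + algebraMap K L β) /
      (algebraMap K L γ * x + algebraMap K L δ))).natDegree ∧
    IsOfFinOrder (cls C' x y)

/-- The roots of `f`, embedded in the algebraic closure of `ℚ`, are the image of an element of the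
finite set `S` under an affine map. -/
def RootsIn (g : ℕ) (S : Finset (Fin (2 * g + 1) → AlgebraicClosure ℚ)) {K : Type} [Field K]
    (C : UBT.OddCurve K) : Prop :=
  ∀ φ : K →+* AlgebraicClosure ℚ, ∃ s ∈ S, ∃ μ ν : AlgebraicClosure ℚ, μ ≠ 0 ∧
    (C.f.map φ).roots = Finset.univ.val.map fun j => μ * s j + ν

/-- For every `d`: up to affine maps of the roots there are only finitely many curves `C` over number
fields `K` of degree at most `d` with `2 g + 9` torsion points of different abscissae over the
algebraic closure, or with one torsion point of degree at least `2 g + 9`; and all torsion of their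
Jacobians over `K` is bounded. -/
def FinitelyManyCurves (g : ℕ) : Prop :=
  ∀ d : ℕ, ∃ (S : Finset (Fin (2 * g + 1) → AlgebraicClosure ℚ)) (B : ℕ),
    ∀ (K : Type) [Field K] [NumberField K], Module.finrank ℚ K ≤ d → ∀ C : UBT.OddCurve K,
    ManyPoints g C ∨ LargeDegree g C →
    RootsIn g S C ∧ ∀ c : C.Jac, IsOfFinOrder c → orderOf c ≤ B

end Pool.Agent.MNV
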