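import Pool.Agent.MNU.StmtsU
import Pool.Agent.MNV.Final

set_option autoImplicit false

/-!
# MNV: statements. Stronger finiteness: no bound for the field of the torsion points.
-/

namespace Pool.Agent.MNV

open Polynomial NumberField Pool.Agent.MNT Pool.Agent.MNU

/-- `C`, of degree `2 g + 1`, has a configuration over some number field `E ⊇ K`. -/
def HasCfg (g : ℕ) {K : Type} [Field K] [NumberField K] (C : UBT.OddCurve K) : Prop :=
  C.f.natDegree = 2 * g + 1 ∧ ∃ (E : Type) (_ : Field E) (_ : NumberField E) (_ : Algebra K E)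
    (e : E) (θ : Fin (2 * g + 1) → E) (x : Fin (2 * g + 9) → E),
    C.f.map (algebraMap K E) = Polynomial.C e * ∏ j, (X - Polynomial.C (θ j)) ∧ Cfg g (Sum.elim θ x) e

/-- The same with roots in `K`. -/
def RCfg (g : ℕ) (K : Type) [Field K] [NumberField K] (e : K) (θ : Fin (2 * g + 1) → K) : Prop :=
  ∃ (L : Type) (_ : Field L) (_ : NumberField L) (_ : Algebra K L) (x : Fin (2 * g + 9) → L),
    Cfg g (Sum.elim (fun j => algebraMap K L (θ j)) x) (algebraMap K L e)

/-- LDC (copy of `Helper31_MNU/CFM.lean` up to `hcfg`; uses HSI, MOB, MOI, CNE of MNU and PEL of MNT).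
The configuration from a torsion point of large degree. CNE is applied with `d := [M : ℚ]`. -/
def LdcStmt : Prop := ∀ (g : ℕ) (K M : Type) [Field K] [NumberField K] [Field M] [NumberField M]
    [Algebra K M] (f : K[X]) (Y : UBT.OddCurve M) (α β γ δ : M), IsOddModel g f Y α β γ δ →
    ∀ x y : M, y ^ 2 = Y.f.eval x → γ * x + δ ≠ 0 →
    2 * g + 9 ≤ (minpoly K ((α * x + β) / (γ * x + δ))).natDegree → IsOfFinOrder (cls Y x y) →
    HasCfg g Y

/-- LDT (40 lines; uses LDC). PROOF. LDC for `K := F`, `M := L`, `Y := C'` (`IsOddModel` over `L`: map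
the identity of `OddModel` by `algebraMap K L`; `mob` and the sum of `OddModel` are the same) gives
`E ⊇ L`; `C.f.map (algebraMap K E) = C'.f.map (algebraMap L E)` (`Algebra K E` = the composition). -/
def LdtStmt : Prop := ∀ (g : ℕ) (K : Type) [Field K] [NumberField K] (C : UBT.OddCurve K),
    LargeDegree g C → HasCfg g C

/-- MPT (40 lines; uses SPU). PROOF. SPU over `L` for `C'.f` (`tor_iff`), composition of the algebras. -/
def MptStmt : Prop := ∀ (g : ℕ) (K : Type) [Field K] [NumberField K] (C : UBT.OddCurve K),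
    ManyPoints g C → HasCfg g C

/-- SPV (80 lines). The roots generate a field of bounded degree. PROOF. In `E` take
`E₀ = IntermediateField.adjoin K (Set.range θ)`, `θ₀ j = ⟨θ j, _⟩`, `e₀ = algebraMap K E₀ C.f.leadingCoeff`
(`algebraMap K E C.f.leadingCoeff = e`: compare leading coefficients). `[E₀ : K] ≤ (2g+1)!`:
`E₀` is a splitting field of `C.f` over `K` (`IntermediateField.adjoin_rootSet_isSplittingField` or
`Polynomial.IsSplittingField` with `rootSet = range θ`); the degree of a splitting field is at most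
`(natDegree)!` (see `Helper81_UBT/Ext1.lean` for the bound and `IsSplittingField.algEquiv`). -/
def SpvStmt : Prop := ∀ (g : ℕ) (K : Type) [Field K] [NumberField K] (C : UBT.OddCurve K),
    HasCfg g C → ∃ (E : Type) (_ : Field E) (_ : NumberField E) (_ : Algebra K E) (e : E)
      (θ : Fin (2 * g + 1) → E), Module.finrank ℚ E ≤ Module.finrank ℚ K * (2 * g + 1).factorial ∧
      C.f.map (algebraMap K E) = Polynomial.C e * ∏ j, (X - Polynomial.C (θ j)) ∧ RCfg g E e θ

/-- HXT (STRONG, 120 lines). The height in an extension. PROOF. `y` may be multiplied by a nonzero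
integer (`Height.mulHeight_smul_eq_mulHeight` or similar), so `y i = (a i : K)`, `a i : 𝓞 K`.
`NumberField.mulHeight_eq` for `K` and `L`. Finite part: `absNorm_mul_finprod_finitePlace_eq_one`
(Mathlib, `NumberTheory/Height/NumberField.lean`) for `a` and for `algebraMap (𝓞 K) (𝓞 L) ∘ a`, whose
span is the image (`Ideal.map_span`) of the span of `a`, and `Ideal.absNorm_algebraMap`
(`absNorm (map I) = absNorm I ^ [L : K]`). Infinite part: `∏_w (⨆ w (y i)) ^ mult w` is the product over
all embeddings `σ : L →+* ℂ` of `⨆ ‖σ (y i)‖` (`InfinitePlace.card_filter_mk_eq`), and every embedding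
of `K` has exactly `[L : K]` extensions (`AlgHom.card`). -/
def HxtStmt : Prop := ∀ (K L : Type) [Field K] [NumberField K] [Field L] [NumberField L]
    [Algebra K L] (ι : Type) [Fintype ι] (y : ι → K), y ≠ 0 →
    Height.mulHeight (fun i => algebraMap K L (y i)) = Height.mulHeight y ^ Module.finrank K L

/-- RDH (50 lines; uses HGU, HXT). Height of the differences of the roots. PROOF. Over `L` HGU gives
`mulHeight (all differences) ≤ HH^[L:ℚ]`; a subfamily has at most this height
(`Height.mulHeight_comp_le`); HXT: `mulHeight_K (roots)^[L:K] ≤ (HH^[K:ℚ])^[L:K]`. -/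
def RdhStmt : Prop := ∀ g : ℕ, 2 ≤ g → ∀ (K : Type) [Field K] [NumberField K] (e : K)
    (θ : Fin (2 * g + 1) → K), RCfg g K e θ →
    Height.mulHeight (fun pq : Fin (2 * g + 1) × Fin (2 * g + 1) => θ pq.1 - θ pq.2) ≤
      HH g ^ Module.finrank ℚ K

/-- RFN (copy of `Helper69_MNU/FNU.lean`; uses RDH, `BHT.NCSStmt`). -/
def RfnStmt : Prop := ∀ g : ℕ, 2 ≤ g → ∀ d : ℕ,
    ∃ S : Finset (Fin (2 * g + 1) → AlgebraicClosure ℚ),
    ∀ (K : Type) [Field K] [NumberField K], Module.finrank ℚ K ≤ d →
    ∀ (e : K) (θ : Fin (2 * g + 1) → K), RCfg g K e θ → ∀ φ : K →+* AlgebraicClosure ℚ,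
    ∃ s ∈ S, ∃ μ ν : AlgebraicClosure ℚ, μ ≠ 0 ∧ ∀ j, φ (θ j) = μ * s j + ν

/-- RTB (copy of `Helper67_MNU/TJS.lean`; uses RDH, GPR, PRP). Only the differences of the roots are
needed. -/
def RtbStmt : Prop := ∀ g : ℕ, 2 ≤ g → ∀ d : ℕ, ∃ B : ℕ,
    ∀ (K : Type) [Field K] [NumberField K], Module.finrank ℚ K ≤ d →
    ∀ (e : K) (θ : Fin (2 * g + 1) → K), RCfg g K e θ → ∀ C : UBT.OddCurve K,
    C.f = Polynomial.C e * ∏ j, (X - Polynomial.C (θ j)) →
    ∀ c : C.Jac, IsOfFinOrder c → orderOf c ≤ B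

end Pool.Agent.MNV
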